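import Pool.Agent.Helper793.IsoU

set_option autoImplicit false

open MeasureTheory Metric Set Filter Topology
open scoped ENNReal NNReal
open Pool.Agent.Helper793.QEig Pool.Agent.Helper793.Sob
open Pool.Agent.Helper793.FEig (FP IsD IsEig Spec lamLS lam1 lam2 cls cls_eq cls_mem normLq energy)

namespace Pool.Agent.Results.MP_0fb79d_an.TwoBallsFull

variable {N : ℕ}

/-- an eigenfunction (at the level of functions) gives an eigenpair (at the level of classes) -/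
theorem eigenpair_of_isEig {q : ℝ≥0} [Fact (1 ≤ (q : ℝ≥0∞))]
    {Ω : Set (EuclideanSpace ℝ (Fin N))} (hN : 2 ≤ N) (hΩ : Bornology.IsBounded Ω)
    (hq' : ((N : ℝ) - 2) * q < 2 * N) {lam : ℝ} {p : FP N} (hp : IsEig q Ω lam p) :
    IsEigenpair q Ω lam (cls q p) := by
  obtain ⟨hD, hne, hw⟩ := hp
  obtain ⟨c1, c2, c3, hu, hG⟩ := cls_mem (q := q) hN hΩ hq' hD
  have e1 : ((cls q p).1 : EuclideanSpace ℝ (Fin N) → ℝ) =ᵐ[volume] p.1 := by
    rw [cls_eq hu hG]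
    exact MemLp.coeFn_toLp hu
  have e2 : ((cls q p).2 : EuclideanSpace ℝ (Fin N) → EuclideanSpace ℝ (Fin N)) =ᵐ[volume] p.2 := by
    rw [cls_eq hu hG]
    exact MemLp.coeFn_toLp hG
  refine ⟨c1, ?_, ?_⟩
  · intro h0
    apply hne
    rw [Lp.eq_zero_iff_ae_eq_zero] at h0
    filter_upwards [h0, e1] with x a1 a2
    rw [← a2, a1, Pi.zero_apply]
  · intro ψ hψ
    have h1 := hw ψ hψ
    have i1 : ∫ x, inner ℝ ((cls q p).2 x) (gradient ψ x) = ∫ x, inner ℝ (p.2 x) (gradient ψ x) := by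
      apply integral_congr_ae
      filter_upwards [e2] with x hx
      rw [hx]
    have i2 : ∫ x, |(cls q p).1 x| ^ ((q : ℝ) - 2) * (cls q p).1 x * ψ x =
        ∫ x, |p.1 x| ^ ((q : ℝ) - 2) * p.1 x * ψ x := by
      apply integral_congr_ae
      filter_upwards [e1] with x hx
      rw [hx]
    rw [i1, i2, h1, c2]

/-- **Main theorem.** For every `N ≥ 2` and every `1 < q < 2` there are two disjoint balls such that
for their union `Ω` the first `q`-eigenvalue is isolated in the `q`-spectrum, and the second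
`q`-eigenvalue is strictly smaller than the second Lusternik-Schnirelman value. -/
theorem result (N : ℕ) (hN : 2 ≤ N) (q : ℝ) (hq : 1 < q) (hq2 : q < 2) :
    ∃ (a : EuclideanSpace ℝ (Fin N)) (r : ℝ) (Ω : Set (EuclideanSpace ℝ (Fin N))),
      0 < r ∧ r < 1 ∧ ‖a‖ = 3 ∧ Ω = ball 0 1 ∪ ball a r ∧
      (∃ δ > 0, ∀ lam ∈ Spec q Ω, |lam - lam1 q Ω| < δ → lam = lam1 q Ω) ∧
      (∃ lam ∈ Spec q Ω, lam1 q Ω < lam ∧ lam < lamLS q Ω 2) ∧
      lam1 q Ω < lam2 q Ω ∧ lam2 q Ω < lamLS q Ω 2 := by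
  lift q to ℝ≥0 using (by linarith) with q'
  have hq1 : 1 < q' := by exact_mod_cast hq
  have hq2' : q' < 2 := by exact_mod_cast hq2
  have _ : Fact (1 ≤ (q' : ℝ≥0∞)) := ⟨by
    have : (1 : ℝ≥0) ≤ q' := hq1.le
    exact_mod_cast this⟩
  have hN2 : (2:ℝ) ≤ N := by exact_mod_cast hN
  have hq' : ((N : ℝ) - 2) * q' < 2 * N := by nlinarith
  obtain ⟨a, r, χ, hr0, hr1, hna, hsep, h1, h2, h3⟩ :=
    Pool.Agent.Helper793.Main0.main (N := N) (q := q') hN hq1 hq2'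
  have hb1 : Bornology.IsBounded (ball (0 : EuclideanSpace ℝ (Fin N)) 1) := isBounded_ball
  have hb2 : Bornology.IsBounded (ball a r) := isBounded_ball
  obtain ⟨δ, hδ, hiso⟩ := Pool.Agent.Helper793.IsoU.union_isolated hsep hN hb1 hb2 hq'
    ⟨0, mem_ball_self one_pos⟩ ⟨a, mem_ball_self hr0⟩ hq1 hq2'
    (Pool.Agent.Helper793.Iso.ball_isolated (q := q') hN hq1 hq2' 0 one_pos)
    (Pool.Agent.Helper793.Iso.ball_isolated (q := q') hN hq1 hq2' a hr0)
  have hlam1 := Pool.Agent.Helper793.Main0.lam1_eq (q := q') hN (hb1.union hb2) hq'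
  have hisoS : ∀ lam ∈ Spec q' (ball 0 1 ∪ ball a r),
      lam < lam1 q' (ball 0 1 ∪ ball a r) + δ → lam = lam1 q' (ball 0 1 ∪ ball a r) := by
    rintro lam ⟨p, hp⟩ hlt
    rw [hlam1] at hlt ⊢
    exact hiso lam _ (eigenpair_of_isEig hN (hb1.union hb2) hq' hp) hlt
  refine ⟨a, r, _, hr0, hr1, hna, rfl, ⟨δ, hδ, ?_⟩, ⟨_, h1, h2, h3⟩, ?_, lt_of_le_of_lt ?_ h3⟩
  · intro lam hlam hd
    apply hisoS lam hlam
    linarith [le_abs_self (lam - lam1 q' (ball 0 1 ∪ ball a r))]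
  · have h4 : lam1 q' (ball 0 1 ∪ ball a r) + δ ≤ lam2 q' (ball 0 1 ∪ ball a r) := by
      have hne : {lam | lam ∈ Spec q' (ball 0 1 ∪ ball a r) ∧
          lam1 q' (ball 0 1 ∪ ball a r) < lam}.Nonempty :=
        ⟨l1 q' (ball (0 : EuclideanSpace ℝ (Fin N)) 1), h1, h2⟩
      apply le_csInf hne
      rintro lam ⟨b1, b2⟩
      by_contra hc
      have := hisoS lam b1 (not_le.mp hc)
      linarith
    linarith
  · apply csInf_le
    · refine ⟨lam1 q' (ball 0 1 ∪ ball a r), ?_⟩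
      rintro x ⟨_, hx⟩
      exact hx.le
    · exact ⟨h1, h2⟩

end Pool.Agent.Results.MP_0fb79d_an.TwoBallsFull
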